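import Pool.Agent.H887R3.LW.MV11

/-!
# Mahler measures of irreducible polynomials of growing dimension: the nonreciprocal case and the
case of bounded degree in one of the variables

Let `F_n` be irreducible integer polynomials whose exponent polytopes have dimensions tending to
infinity, each of them nonreciprocal or of degree between `1` and `w` in one of its variables.
Then for every nonzero integer polynomial `G` only finitely many `m(F_n)` lie in the set `M(G)` of
the logarithmic Mahler measures of the monomial substitutions of `G`.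
-/

set_option autoImplicit false

namespace Pool.Agent.Results.MP_44c6d5_nt.NonreciprocalOrThinSequences

open Filter

noncomputable section

/-- Value of an integer polynomial in `k` variables at the torus point
`(exp (2 π i t_1), …, exp (2 π i t_k))`. -/
def value {k : ℕ} (F : MvPolynomial (Fin k) ℤ) (t : Fin k → ℝ) : ℂ :=
  MvPolynomial.eval (fun j : Fin k => Complex.exp (2 * (Real.pi : ℂ) * Complex.I * ((t j : ℝ) : ℂ)))
    (MvPolynomial.map (Int.castRingHom ℂ) F)

/-- The logarithmic Mahler measure. -/
def logMahler {k : ℕ} (F : MvPolynomial (Fin k) ℤ) : ℝ :=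
  ∫ t in Set.Icc (0 : Fin k → ℝ) 1, Real.log ‖value F t‖

/-- The set `M(F)` of the logarithmic Mahler measures of the monomial substitutions `F_A ≠ 0`,
`A` an integer matrix with `l ≥ 0` rows: `F_A(z) = F(z ^ A)` takes at the torus point with
arguments `t` the value of `F` at the torus point with arguments `∑_i A_{i j} t_i`. -/
def substMeasures {k : ℕ} (F : MvPolynomial (Fin k) ℤ) : Set ℝ :=
  {y : ℝ | ∃ (l : ℕ) (A : Matrix (Fin l) (Fin k) ℤ),
    (∃ t : Fin l → ℝ, value F (fun j => ∑ i, (A i j : ℝ) * t i) ≠ 0) ∧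
    y = ∫ t in Set.Icc (0 : Fin l → ℝ) 1,
      Real.log ‖value F (fun j => ∑ i, (A i j : ℝ) * t i)‖}

/-- The reciprocal polynomial `z_1^{d_1} ⋯ z_k^{d_k} F(1/z_1, …, 1/z_k)`, where `d_i` is the degree
of `F` in `z_i`. -/
def reciprocal {k : ℕ} (F : MvPolynomial (Fin k) ℤ) : MvPolynomial (Fin k) ℤ :=
  ∑ s ∈ F.support, MvPolynomial.monomial
    (Finsupp.equivFunOnFinite.symm fun i => F.degreeOf i - s i) (F.coeff s)

/-- The dimension of the exponent polytope of `F`: the dimension of the affine hull of the exponent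
vectors of `F`. -/
def dim {k : ℕ} (F : MvPolynomial (Fin k) ℤ) : ℕ :=
  Module.finrank ℝ (vectorSpan ℝ
    ((fun s : Fin k →₀ ℕ => fun i : Fin k => ((s i : ℕ) : ℝ)) '' (F.support : Set (Fin k →₀ ℕ))))

theorem result (w : ℕ) (d : ℕ → ℕ) (F : ∀ n : ℕ, MvPolynomial (Fin (d n)) ℤ)
    (hirr : ∀ n, Irreducible (F n)) (hdim : Tendsto (fun n => dim (F n)) atTop atTop)
    (hcase : ∀ n, ¬ Associated (reciprocal (F n)) (F n) ∨
      ∃ i, 1 ≤ (F n).degreeOf i ∧ (F n).degreeOf i ≤ w)
    {k : ℕ} (G : MvPolynomial (Fin k) ℤ) (hG : G ≠ 0) :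
    {n : ℕ | logMahler (F n) ∈ substMeasures G}.Finite :=
  Pool.Agent.H887R3.LW.growing w d F hirr hdim hcase G hG

end

end Pool.Agent.Results.MP_44c6d5_nt.NonreciprocalOrThinSequences
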